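import Pool.Agent.Helper62.WB.Goals
import Pool.Agent.Helper62.WB.Basic

/-!
# Project WB (MP_08df5f_al), packet TR: the tree of `Q`
-/

set_option autoImplicit false

namespace Pool.Agent.Helper77.WB

open Pool.Agent.Helper62.WB

open scoped Classical

/-- a finitely generated group has finitely many homomorphisms to a finite group -/
theorem finite_hom {Γ P : Type} [Group Γ] [Group P] [Finite P] (h : Group.FG Γ) :
    Finite (Γ →* P) := by
  obtain ⟨S, hS⟩ := Group.fg_def.1 h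
  refine Finite.of_injective (fun f : Γ →* P => fun s : S => f s) ?_
  intro f g hfg
  refine MonoidHom.eq_of_eqOn_dense (s := (S : Set Γ)) hS ?_
  intro x hx
  exact congrFun hfg ⟨x, hx⟩

section

variable {T : RTree} {Γ D Q : Type} [Group Γ] [Group D] [Group Q]

/-- the equivalence of level `n` -/
def lev (ρ : Q →* Equiv.Perm T.Bd) (n : ℕ) : Setoid T.Bd where
  r x y := ∀ q, (ρ q x).1 n = (ρ q y).1 n
  iseqv := ⟨fun _ _ => rfl, fun h q => (h q).symm, fun h k q => (h q).trans (k q)⟩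

/-- `Γ` permutes the values of `x ↦ (ρ q x)_n` -/
theorem exists_phi (a : TAct T Γ) (b : TAct T D) (ρ : Q →* Equiv.Perm T.Bd)
    (h : ∀ q g, ∃ d, ρ q * a.bd g * (ρ q)⁻¹ = b.bd d) (n : ℕ) (q : Q) :
    ∃ φ : Γ →* Equiv.Perm (T.L n), ∀ g x, (ρ q (a.bd g x)).1 n = φ g ((ρ q x).1 n) := by
  choose d hd using h q
  have key : ∀ g x, (ρ q (a.bd g x)).1 n = b.act n (d g) ((ρ q x).1 n) := by
    intro g x
    rw [← TAct.bd_apply, ← hd g]
    simp [Equiv.Perm.mul_apply]
  have surj : ∀ v : T.L n, ∃ x, (ρ q x).1 n = v := by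
    intro v
    obtain ⟨y, hy⟩ := exists_bd T n v
    exact ⟨(ρ q)⁻¹ y, by simpa using hy⟩
  refine ⟨MonoidHom.mk' (fun g => b.act n (d g)) ?_, ?_⟩
  · intro g g'
    ext v
    obtain ⟨x, rfl⟩ := surj v
    rw [Equiv.Perm.mul_apply, ← key, ← key, ← key, map_mul, Equiv.Perm.mul_apply]
  · intro g x
    exact key g x

/-- a function of the form `x ↦ (ρ q x)_n` is determined by the permutations and one value -/
theorem eq_of_phi {a : TAct T Γ} (ha : a.WeaklyBranch) {ρ : Q →* Equiv.Perm T.Bd}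
    (hc : ∀ q, Cts (ρ q)) {n : ℕ} {q q' : Q} {φ : Γ →* Equiv.Perm (T.L n)} {x₀ : T.Bd}
    (h1 : ∀ g x, (ρ q (a.bd g x)).1 n = φ g ((ρ q x).1 n))
    (h2 : ∀ g x, (ρ q' (a.bd g x)).1 n = φ g ((ρ q' x).1 n))
    (h3 : (ρ q x₀).1 n = (ρ q' x₀).1 n) (y : T.Bd) : (ρ q y).1 n = (ρ q' y).1 n := by
  obtain ⟨k1, hk1⟩ := hc q y n
  obtain ⟨k2, hk2⟩ := hc q' y n
  obtain ⟨g, hg⟩ := ha.trans (max k1 k2) (x₀.1 (max k1 k2)) (y.1 (max k1 k2))
  have hz : (a.bd g x₀).1 (max k1 k2) = y.1 (max k1 k2) := hg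
  rw [← hk1 (a.bd g x₀) (bd_eq_of_le (le_max_left _ _) hz),
    ← hk2 (a.bd g x₀) (bd_eq_of_le (le_max_right _ _) hz), h1, h2, h3]

theorem finite_range {a : TAct T Γ} (ha : a.WeaklyBranch) (hfg : Group.FG Γ) (b : TAct T D)
    {ρ : Q →* Equiv.Perm T.Bd} (hc : ∀ q, Cts (ρ q))
    (h : ∀ q g, ∃ d, ρ q * a.bd g * (ρ q)⁻¹ = b.bd d) (n : ℕ) :
    Finite (Set.range fun (q : Q) (x : T.Bd) => (ρ q x).1 n) := by
  obtain ⟨r, hr⟩ := T.root
  obtain ⟨x₀, _⟩ := exists_bd T 0 r
  choose φ hφ using exists_phi a b ρ h n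
  have := T.fin n
  have : Finite (Γ →* Equiv.Perm (T.L n)) := finite_hom hfg
  refine Finite.of_injective (fun f : (Set.range fun (q : Q) (x : T.Bd) => (ρ q x).1 n) =>
    ((φ f.2.choose, f.1 x₀) : (Γ →* Equiv.Perm (T.L n)) × T.L n)) ?_
  intro f f' hff
  obtain ⟨e1, e2⟩ := Prod.mk.inj hff
  have s1 := f.2.choose_spec
  have s2 := f'.2.choose_spec
  apply Subtype.ext
  rw [← s1, ← s2]
  funext y
  refine eq_of_phi ha hc (φ := φ f.2.choose) (x₀ := x₀) (hφ _) ?_ ?_ y
  · rw [e1]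
    exact hφ _
  · have t1 := congrFun s1 x₀
    have t2 := congrFun s2 x₀
    calc (ρ f.2.choose x₀).1 n = f.1 x₀ := t1
      _ = f'.1 x₀ := e2
      _ = (ρ f'.2.choose x₀).1 n := t2.symm

theorem finite_quot {ρ : Q →* Equiv.Perm T.Bd} {n : ℕ}
    (h : Finite (Set.range fun (q : Q) (x : T.Bd) => (ρ q x).1 n)) :
    Finite (Quotient (lev ρ n)) := by
  have := T.fin n
  have hlift : ∀ x y : T.Bd, (lev ρ n).r x y →
      (fun f : (Set.range fun (q : Q) (x : T.Bd) => (ρ q x).1 n) => f.1 x) =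
        fun f => f.1 y := by
    intro x y hxy
    funext f
    obtain ⟨f, q, rfl⟩ := f
    exact hxy q
  refine Finite.of_injective (Quotient.lift (s := lev ρ n)
    (fun x => (fun f : (Set.range fun (q : Q) (x : T.Bd) => (ρ q x).1 n) => f.1 x)) hlift) ?_
  intro u v
  refine Quotient.inductionOn₂ u v ?_
  intro x y hxy
  apply Quotient.sound
  intro q
  exact congrFun hxy ⟨_, q, rfl⟩

/-- the classes are open -/
theorem open_class {ρ : Q →* Equiv.Perm T.Bd} (hc : ∀ q, Cts (ρ q)) {n : ℕ}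
    (h : Finite (Set.range fun (q : Q) (x : T.Bd) => (ρ q x).1 n)) (y : T.Bd) :
    ∃ k, ∀ z : T.Bd, z.1 k = y.1 k → (lev ρ n).r z y := by
  have h1 : ∀ f : (Set.range fun (q : Q) (x : T.Bd) => (ρ q x).1 n),
      ∃ k, ∀ z : T.Bd, z.1 k = y.1 k → f.1 z = f.1 y := by
    rintro ⟨f, q, rfl⟩
    exact hc q y n
  choose k hk using h1
  obtain ⟨K, hK⟩ := (Set.finite_range k).bddAbove
  refine ⟨K, fun z hz q => ?_⟩
  exact hk ⟨_, q, rfl⟩ z (bd_eq_of_le (hK ⟨⟨_, q, rfl⟩, rfl⟩) hz)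

/-- the tree -/
noncomputable def tree (ρ : Q →* Equiv.Perm T.Bd) (hfin : ∀ n, Finite (Quotient (lev ρ n))) :
    RTree where
  L n := Quotient (lev ρ n)
  fin := hfin
  root := by
    obtain ⟨r, hr⟩ := T.root
    obtain ⟨x₀, _⟩ := exists_bd T 0 r
    refine ⟨Quotient.mk (lev ρ 0) x₀, fun w => ?_⟩
    refine Quotient.inductionOn w fun x => ?_
    apply Quotient.sound
    intro q
    rw [hr ((ρ q x).1 0), hr ((ρ q x₀).1 0)]
  par n := Quotient.lift (s := lev ρ (n + 1)) (fun x => Quotient.mk (lev ρ n) x) fun x y hxy =>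
    Quotient.sound fun q => bd_eq_of_le (Nat.le_succ n) (hxy q)
  par_surj n u := by
    refine Quotient.inductionOn u fun x => ?_
    exact ⟨Quotient.mk (lev ρ (n + 1)) x, rfl⟩

/-- the action of `Q` on level `n` -/
noncomputable def actQ (ρ : Q →* Equiv.Perm T.Bd) (n : ℕ) :
    Q →* Equiv.Perm (Quotient (lev ρ n)) where
  toFun q := ⟨Quotient.lift (s := lev ρ n) (fun x => Quotient.mk (lev ρ n) (ρ q x)) fun x y hxy =>
      Quotient.sound fun q' => by
        have := hxy (q' * q)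
        simpa [map_mul, Equiv.Perm.mul_apply] using this,
    Quotient.lift (s := lev ρ n) (fun x => Quotient.mk (lev ρ n) (ρ q⁻¹ x)) fun x y hxy =>
      Quotient.sound fun q' => by
        have := hxy (q' * q⁻¹)
        simpa [map_mul, Equiv.Perm.mul_apply] using this,
    fun u => by
      refine Quotient.inductionOn u fun x => ?_
      show Quotient.mk (lev ρ n) (ρ q⁻¹ (ρ q x)) = Quotient.mk (lev ρ n) x
      simp,
    fun u => by
      refine Quotient.inductionOn u fun x => ?_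
      show Quotient.mk (lev ρ n) (ρ q (ρ q⁻¹ x)) = Quotient.mk (lev ρ n) x
      simp⟩
  map_one' := by
    ext u
    refine Quotient.inductionOn u fun x => ?_
    show Quotient.mk (lev ρ n) (ρ 1 x) = Quotient.mk (lev ρ n) x
    simp
  map_mul' q q' := by
    ext u
    refine Quotient.inductionOn u fun x => ?_
    show Quotient.mk (lev ρ n) (ρ (q * q') x) = Quotient.mk (lev ρ n) (ρ q (ρ q' x))
    simp

theorem actQ_mk (ρ : Q →* Equiv.Perm T.Bd) (n : ℕ) (q : Q) (x : T.Bd) :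
    actQ ρ n q (Quotient.mk (lev ρ n) x) = Quotient.mk (lev ρ n) (ρ q x) := rfl

/-- the action of `Q ⧸ ρ.ker` on the tree -/
noncomputable def actT (ρ : Q →* Equiv.Perm T.Bd) (hfin : ∀ n, Finite (Quotient (lev ρ n))) :
    TAct (tree ρ hfin) (Q ⧸ ρ.ker) where
  act n := QuotientGroup.lift ρ.ker (actQ ρ n) (by
    intro q hq
    rw [MonoidHom.mem_ker] at hq ⊢
    refine Equiv.ext fun u => ?_
    refine Quotient.inductionOn u fun x => ?_
    show Quotient.mk (lev ρ n) (ρ q x) = Quotient.mk (lev ρ n) x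
    rw [hq]
    rfl)
  par_act n g u := by
    induction g using QuotientGroup.induction_on with
    | H q =>
      refine Quotient.inductionOn u fun x => ?_
      rfl

theorem actT_mk (ρ : Q →* Equiv.Perm T.Bd) (hfin : ∀ n, Finite (Quotient (lev ρ n))) (n : ℕ)
    (q : Q) (x : T.Bd) : (actT ρ hfin).act n (q : Q ⧸ ρ.ker) (Quotient.mk (lev ρ n) x) =
      Quotient.mk (lev ρ n) (ρ q x) := rfl

theorem tree_anc (ρ : Q →* Equiv.Perm T.Bd) (hfin : ∀ n, Finite (Quotient (lev ρ n))) (n k : ℕ)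
    (x : T.Bd) : (tree ρ hfin).anc n k (Quotient.mk (lev ρ (n + k)) x) =
      Quotient.mk (lev ρ n) x := by
  induction k with
  | zero => rfl
  | succ k ih => exact ih

end

theorem tr : StmtTR := by
  intro T Γ D Q _ _ _ a b i ρ hfg ha _ hi hc h
  have hr : ∀ n, Finite (Set.range fun (q : Q) (x : T.Bd) => (ρ q x).1 n) :=
    finite_range ha hfg b hc h
  have hfin : ∀ n, Finite (Quotient (lev ρ n)) := fun n => finite_quot (hr n)
  refine ⟨tree ρ hfin, actT ρ hfin, ?_, ?_, ?_⟩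
  · -- faithful
    intro g
    induction g using QuotientGroup.induction_on with
    | H q =>
      intro hg
      rw [QuotientGroup.eq_one_iff, MonoidHom.mem_ker]
      ext x
      apply Subtype.ext
      funext n
      have h1 : (actT ρ hfin).act n (q : Q ⧸ ρ.ker) (Quotient.mk (lev ρ n) x) =
          Quotient.mk (lev ρ n) x := by
        rw [hg n]
        rfl
      rw [actT_mk] at h1
      have h2 := Quotient.exact h1
      have h3 := h2 1
      simpa using h3
  · -- transitive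
    intro n u v
    refine Quotient.inductionOn₂ u v ?_
    intro x y
    obtain ⟨k, hk⟩ := open_class hc (hr n) y
    obtain ⟨g, hg⟩ := ha.trans k (x.1 k) (y.1 k)
    refine ⟨(i g : Q), ?_⟩
    rw [actT_mk, hi]
    exact Quotient.sound (hk _ hg)
  · -- rigid stabilisers
    intro n u
    refine Quotient.inductionOn u ?_
    intro y
    obtain ⟨k, hk⟩ := open_class hc (hr n) y
    obtain ⟨c, hc1, hc2⟩ := ha.rist k (y.1 k)
    refine ⟨((i c : Q) : Q ⧸ ρ.ker), ?_, ?_⟩
    · intro j w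
      refine Quotient.inductionOn w ?_
      intro x hx
      rw [actT_mk, hi]
      rw [tree_anc] at hx
      have h1 : x.1 k ≠ y.1 k := fun h2 => hx (Quotient.sound (hk x h2))
      rw [(mem_Rist_iff a _ c).1 hc1 x h1]
    · intro h1
      rw [QuotientGroup.eq_one_iff, MonoidHom.mem_ker, hi] at h1
      exact hc2 (eq_one_of_bd ha fun x => by rw [h1]; rfl)

end Pool.Agent.Helper77.WB
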